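import Mathlib

/-!
# One direction of the Ryll-Nardzewski theorem
In a countable structure with finitely many definable relations of each arity, every relation
invariant under all automorphisms is definable.
-/

namespace Pool.Agent.Helper71.RN
open FirstOrder Set

variable {L : Language} {B : Type*} [L.Structure B]

/-- Two tuples lie in the same definable sets. -/
def Same (L : Language) {B : Type*} [L.Structure B] {n : ℕ} (x y : Fin n → B) : Prop :=
  ∀ d : Set (Fin n → B), (∅ : Set B).Definable L d → (x ∈ d ↔ y ∈ d)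

theorem Same.symm {n : ℕ} {x y : Fin n → B} (h : Same L x y) : Same L y x :=
  fun d hd => (h d hd).symm

theorem same_of_imp {n : ℕ} {x y : Fin n → B}
    (h : ∀ d : Set (Fin n → B), (∅ : Set B).Definable L d → x ∈ d → y ∈ d) : Same L x y := by
  intro d hd
  refine ⟨h d hd, fun hy => ?_⟩
  by_contra hx
  exact h dᶜ hd.compl hx hy

/-- the smallest definable set containing a tuple -/
def atom (L : Language) {B : Type*} [L.Structure B] {n : ℕ} (x : Fin n → B) :
    Set (Fin n → B) :=
  ⋂₀ {d : Set (Fin n → B) | (∅ : Set B).Definable L d ∧ x ∈ d}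

theorem mem_atom_self {n : ℕ} (x : Fin n → B) : x ∈ atom L x :=
  fun _ hd => hd.2

theorem same_of_mem_atom {n : ℕ} {x y : Fin n → B} (h : y ∈ atom L x) : Same L x y :=
  same_of_imp fun d hd hx => h d ⟨hd, hx⟩

theorem definable_sInter_of_finite {α : Type*} {S : Set (Set (α → B))} (hS : S.Finite)
    (hd : ∀ d ∈ S, (∅ : Set B).Definable L d) : (∅ : Set B).Definable L (⋂₀ S) := by
  rw [sInter_eq_iInter]
  have : Finite S := hS
  exact definable_iInter_of_finite fun i => hd _ i.2

theorem definable_sUnion_of_finite {α : Type*} {S : Set (Set (α → B))} (hS : S.Finite)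
    (hd : ∀ d ∈ S, (∅ : Set B).Definable L d) : (∅ : Set B).Definable L (⋃₀ S) := by
  rw [sUnion_eq_iUnion]
  have : Finite S := hS
  exact definable_iUnion_of_finite fun i => hd _ i.2

theorem atom_definable {n : ℕ} (hfin : {s : Set (Fin n → B) | (∅ : Set B).Definable L s}.Finite)
    (x : Fin n → B) : (∅ : Set B).Definable L (atom L x) :=
  definable_sInter_of_finite (hfin.subset fun _ h => h.1) fun _ h => h.1

theorem extend_right {n : ℕ}
    (hfin : {s : Set (Fin (n + 1) → B) | (∅ : Set B).Definable L s}.Finite)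
    {x y : Fin n → B} (h : Same L x y) (b : B) :
    ∃ c : B, Same L (Fin.snoc x b : Fin (n + 1) → B) (Fin.snoc y c : Fin (n + 1) → B) := by
  have h1 := (atom_definable hfin (Fin.snoc x b : Fin (n + 1) → B)).image_comp_embedding
    (Fin.castSuccEmb (n := n))
  have hx : x ∈ (fun g : Fin (n + 1) → B => g ∘ (Fin.castSuccEmb (n := n))) ''
      atom L (Fin.snoc x b : Fin (n + 1) → B) := by
    refine ⟨_, mem_atom_self _, ?_⟩
    ext i
    simp
  obtain ⟨z, hz, hzy⟩ := (h _ h1).1 hx
  refine ⟨z (Fin.last n), ?_⟩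
  have : (Fin.snoc y (z (Fin.last n)) : Fin (n + 1) → B) = z := by
    rw [← hzy]
    ext i
    refine Fin.lastCases ?_ (fun i => ?_) i
    · simp
    · simp
  rw [this]
  exact same_of_mem_atom hz

variable (L B) in
/-- finite partial isomorphisms -/
def PI : Type _ := {p : Set (B × B) // ∃ (n : ℕ) (x y : Fin n → B), Same L x y ∧
  p = Set.range fun i => (x i, y i)}

instance : PartialOrder (PI L B) := inferInstanceAs (PartialOrder (Subtype _))

theorem cof_left (hfin : ∀ n : ℕ, {s : Set (Fin n → B) | (∅ : Set B).Definable L s}.Finite)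
    (b : B) : IsCofinal {p : PI L B | ∃ c, (b, c) ∈ p.1} := by
  rintro ⟨p, n, x, y, hxy, rfl⟩
  obtain ⟨c, hc⟩ := extend_right (hfin (n + 1)) hxy b
  refine ⟨⟨_, n + 1, _, _, hc, rfl⟩, ⟨c, Fin.last n, ?_⟩, ?_⟩
  · simp
  · rintro _ ⟨i, rfl⟩
    exact ⟨i.castSucc, by simp⟩

theorem cof_right (hfin : ∀ n : ℕ, {s : Set (Fin n → B) | (∅ : Set B).Definable L s}.Finite)
    (b : B) : IsCofinal {p : PI L B | ∃ c, (c, b) ∈ p.1} := by
  rintro ⟨p, n, x, y, hxy, rfl⟩
  obtain ⟨c, hc⟩ := extend_right (hfin (n + 1)) hxy.symm b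
  refine ⟨⟨_, n + 1, _, _, hc.symm, rfl⟩, ⟨c, Fin.last n, ?_⟩, ?_⟩
  · simp
  · rintro _ ⟨i, rfl⟩
    exact ⟨i.castSucc, by simp⟩

theorem definable_eq {n : ℕ} (i j : Fin n) :
    (∅ : Set B).Definable L {t : Fin n → B | t i = t j} := by
  rw [empty_definable_iff]
  exact ⟨(Language.var i).equal (Language.var j), by ext; simp⟩

theorem definable_fun {n k : ℕ} (F : L.Functions k) (i : Fin k → Fin n) (j : Fin n) :
    (∅ : Set B).Definable L {t : Fin n → B | Language.Structure.funMap F (fun a => t (i a)) = t j} := by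
  rw [empty_definable_iff]
  exact ⟨(Language.Term.func F fun a => Language.var (i a)).equal (Language.var j), by ext; simp⟩

theorem definable_rel {n k : ℕ} (R : L.Relations k) (i : Fin k → Fin n) :
    (∅ : Set B).Definable L {t : Fin n → B | Language.Structure.RelMap R (fun a => t (i a))} := by
  rw [empty_definable_iff]
  exact ⟨R.formula fun a => Language.var (i a), by ext; simp⟩

/-- Back and forth. -/
theorem exists_equiv [Countable B]
    (hfin : ∀ n : ℕ, {s : Set (Fin n → B) | (∅ : Set B).Definable L s}.Finite)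
    {n : ℕ} {x y : Fin n → B} (h : Same L x y) : ∃ f : B ≃[L] B, ∀ i, f (x i) = y i := by
  classical
  letI : Encodable B := Encodable.ofCountable B
  let D : B ⊕ B → Order.Cofinal (PI L B) :=
    Sum.elim (fun b => ⟨_, cof_left hfin b⟩) (fun b => ⟨_, cof_right hfin b⟩)
  let p0 : PI L B := ⟨_, n, x, y, h, rfl⟩
  let I := Order.idealOfCofinals p0 D
  have hl : ∀ b : B, ∃ p ∈ I, ∃ c, (b, c) ∈ p.1 := by
    intro b
    obtain ⟨p, hp, hpI⟩ := Order.cofinal_meets_idealOfCofinals p0 D (Sum.inl b)
    exact ⟨p, hpI, hp⟩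
  have hr : ∀ b : B, ∃ p ∈ I, ∃ c, (c, b) ∈ p.1 := by
    intro b
    obtain ⟨p, hp, hpI⟩ := Order.cofinal_meets_idealOfCofinals p0 D (Sum.inr b)
    exact ⟨p, hpI, hp⟩
  have hdir : ∀ (k : ℕ) (p : Fin k → PI L B), (∀ i, p i ∈ I) → ∃ q ∈ I, ∀ i, p i ≤ q := by
    intro k
    induction k with
    | zero => exact fun _ _ => ⟨p0, Order.mem_idealOfCofinals _ _, fun i => i.elim0⟩
    | succ k ih =>
      intro p hp
      obtain ⟨q, hq, hq'⟩ := ih (fun i => p i.castSucc) fun i => hp _
      obtain ⟨r, hr, h1, h2⟩ := I.directed _ hq _ (hp (Fin.last k))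
      exact ⟨r, hr, fun i => Fin.lastCases h2 (fun i => (hq' i).trans h1) i⟩
  -- the relation
  let R : B → B → Prop := fun b c => ∃ p ∈ I, (b, c) ∈ p.1
  -- any finite family of related pairs comes from `Same` tuples
  have key : ∀ (k : ℕ) (u v : Fin k → B), (∀ i, R (u i) (v i)) → Same L u v := by
    intro k u v huv
    choose p hpI hp using huv
    obtain ⟨⟨q, m, s, t, hst, rfl⟩, hq, hle⟩ := hdir k p hpI
    have h1 : ∀ i, ∃ j, (s j, t j) = (u i, v i) := fun i => hle i (hp i)
    choose j hj using h1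
    intro d hd
    have h2 := hst _ (hd.preimage_comp j)
    have hs : s ∘ j = u := funext fun i => (Prod.ext_iff.1 (hj i)).1
    have ht : t ∘ j = v := funext fun i => (Prod.ext_iff.1 (hj i)).2
    simpa [hs, ht] using h2
  have hR1 : ∀ b, ∃ c, R b c := fun b => by
    obtain ⟨p, hp, c, hc⟩ := hl b
    exact ⟨c, p, hp, hc⟩
  have hR2 : ∀ b, ∃ c, R c b := fun b => by
    obtain ⟨p, hp, c, hc⟩ := hr b
    exact ⟨c, p, hp, hc⟩
  have heq : ∀ b b' c c', R b c → R b' c' → (b = b' ↔ c = c') := by
    intro b b' c c' h1 h2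
    have := key 2 ![b, b'] ![c, c'] (by intro i; fin_cases i <;> simpa)
    simpa using this _ (definable_eq 0 1)
  choose f hf using hR1
  choose g hg using hR2
  let e : B ≃ B :=
    { toFun := f
      invFun := g
      left_inv := fun b => (heq _ _ _ _ (hg (f b)) (hf b)).2 rfl
      right_inv := fun b => (heq _ _ _ _ (hf (g b)) (hg b)).1 rfl }
  have he : ∀ b, R b (e b) := hf
  refine ⟨{ e with map_fun' := ?_, map_rel' := ?_ }, ?_⟩
  · intro k F u
    have h1 := key (k + 1) (Fin.snoc u (Language.Structure.funMap F u))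
      (Fin.snoc (fun i => e (u i)) (e (Language.Structure.funMap F u))) (by
        intro i
        refine Fin.lastCases ?_ (fun i => ?_) i
        · simpa using he _
        · simpa using he _)
    have h2 := h1 _ (definable_fun F (fun a => a.castSucc) (Fin.last k))
    simp only [mem_ofPred_eq, Fin.snoc_castSucc, Fin.snoc_last, true_iff] at h2
    exact h2.symm
  · intro k r u
    have h1 := key k u (fun i => e (u i)) fun i => he _
    exact (h1 _ (definable_rel r id)).symm
  · intro i
    have h1 : R (x i) (y i) := ⟨p0, Order.mem_idealOfCofinals _ _, i, rfl⟩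
    exact ((heq _ _ _ _ (he (x i)) h1).1 rfl)

theorem definable_of_invariant {L : Language} {B : Type*} [L.Structure B] [Countable B]
    (hfin : ∀ n : ℕ, {s : Set (Fin n → B) | (∅ : Set B).Definable L s}.Finite)
    {n : ℕ} (s : Set (Fin n → B)) (hs : ∀ (f : B ≃[L] B) (x : Fin n → B), x ∈ s → (fun i => f (x i)) ∈ s) :
    (∅ : Set B).Definable L s := by
  have h1 : s = ⋃₀ {d | (∅ : Set B).Definable L d ∧ d ⊆ s} := by
    ext x
    constructor
    · intro hx
      refine ⟨atom L x, ⟨atom_definable (hfin n) x, ?_⟩, mem_atom_self x⟩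
      intro y hy
      obtain ⟨f, hf⟩ := exists_equiv hfin (same_of_mem_atom hy)
      have := hs f x hx
      simpa [hf] using this
    · rintro ⟨d, hd, hx⟩
      exact hd.2 hx
  rw [h1]
  exact definable_sUnion_of_finite ((hfin n).subset fun _ h => h.1) fun _ h => h.1

end Pool.Agent.Helper71.RN
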